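import Pool.Agent.Helper37.Sign.One
import Pool.Agent.Helper17.Sign.Core

/-! Extension of scalars to the algebraic closure. -/

set_option autoImplicit false

namespace Pool.Agent.Helper37.Sign

open Polynomial Module TensorProduct

section forms
variable {F K V : Type*} [Field F] [Field K] [Algebra F K] [AddCommGroup V] [Module F V]

/-- base change of a bilinear form -/
noncomputable def bcForm (K : Type*) [Field K] [Algebra F K] (B : V →ₗ[F] V →ₗ[F] F) :
    (K ⊗[F] V) →ₗ[K] (K ⊗[F] V) →ₗ[K] K :=
  LinearMap.BilinForm.baseChange K (show LinearMap.BilinForm F V from B)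

lemma bcForm_tmul (B : V →ₗ[F] V →ₗ[F] F) (a : K) (x : V) (a' : K) (x' : V) :
    bcForm K B (a ⊗ₜ x) (a' ⊗ₜ x') = (B x x') • (a * a') := rfl

lemma bcForm_swap (B : V →ₗ[F] V →ₗ[F] F) (c : F) (h : ∀ x y, B x y = c * B y x)
    (x y : K ⊗[F] V) : bcForm K B x y = algebraMap F K c * bcForm K B y x := by
  induction x using TensorProduct.induction_on with
  | zero => simp
  | add a b ha hb => rw [map_add, LinearMap.add_apply, ha, hb, map_add, mul_add]
  | tmul a x =>
    induction y using TensorProduct.induction_on with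
    | zero => simp
    | add a b ha hb => rw [map_add, ha, hb, map_add, LinearMap.add_apply, mul_add]
    | tmul b y =>
      rw [bcForm_tmul, bcForm_tmul, h, Algebra.smul_def, Algebra.smul_def, map_mul]
      ring

lemma bcForm_adj (B : V →ₗ[F] V →ₗ[F] F) (u v : Module.End F V)
    (h : ∀ x y, B (u x) y = B x (v y)) (x y : K ⊗[F] V) :
    bcForm K B (u.baseChange K x) y = bcForm K B x (v.baseChange K y) := by
  induction x using TensorProduct.induction_on with
  | zero => simp
  | add a b ha hb => rw [map_add, map_add, LinearMap.add_apply, ha, hb, map_add,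
      LinearMap.add_apply]
  | tmul a x =>
    induction y using TensorProduct.induction_on with
    | zero => simp
    | add a b ha hb => rw [map_add, ha, hb, map_add, map_add]
    | tmul b y =>
      rw [LinearMap.baseChange_tmul, LinearMap.baseChange_tmul, bcForm_tmul, bcForm_tmul, h]

lemma bcForm_nd [FiniteDimensional F V] (B : V →ₗ[F] V →ₗ[F] F) (c : F)
    (h : ∀ x y, B x y = c * B y x) (nd : ∀ x, (∀ y, B x y = 0) → x = 0) (x : K ⊗[F] V)
    (hx : ∀ y, bcForm K B x y = 0) : x = 0 := by
  classical
  let b := Module.finBasis F V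
  have hinj : Function.Injective (B.flip : V →ₗ[F] Module.Dual F V) := by
    rw [← LinearMap.ker_eq_bot, LinearMap.ker_eq_bot']
    intro y hy
    apply nd
    intro x
    rw [h]
    have := LinearMap.congr_fun hy x
    rw [LinearMap.flip_apply, LinearMap.zero_apply] at this
    rw [this, mul_zero]
  have hsurj : Function.Surjective (B.flip : V →ₗ[F] Module.Dual F V) :=
    (LinearMap.injective_iff_surjective_of_finrank_eq_finrank
      (Subspace.dual_finrank_eq).symm).mp hinj
  choose d hd using fun j => hsurj (b.coord j)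
  have hd' : ∀ j x, B x (d j) = b.repr x j := by
    intro j x
    have := LinearMap.congr_fun (hd j) x
    rwa [LinearMap.flip_apply] at this
  let bK := Algebra.TensorProduct.basis K b
  have key : ∀ (x : K ⊗[F] V) (j), bcForm K B x (1 ⊗ₜ d j) = bK.repr x j := by
    intro x j
    induction x using TensorProduct.induction_on with
    | zero => simp
    | add a b ha hb => rw [map_add, LinearMap.add_apply, ha, hb, map_add, Finsupp.add_apply]
    | tmul a x =>
      rw [bcForm_tmul, hd', Algebra.TensorProduct.basis_repr_tmul]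
      simp [Algebra.smul_def, mul_comm]
  apply bK.repr.injective
  ext j
  rw [← key, hx, map_zero, Finsupp.zero_apply]

end forms

section alg
variable {F V W : Type*} [Field F] [AddCommGroup V] [Module F V]
  [AddCommGroup W] [Module F W]

/-- base change of pairs of endomorphisms -/
noncomputable def bc (K : Type*) [Field K] [Algebra F K] :
    (Module.End F V × Module.End F W) →+*
      (Module.End K (K ⊗[F] V) × Module.End K (K ⊗[F] W)) :=
  RingHom.prodMap (Module.End.baseChangeHom F K V).toRingHom
    (Module.End.baseChangeHom F K W).toRingHom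

variable {K : Type*} [Field K] [Algebra F K]

lemma bc_fst (u : Module.End F V × Module.End F W) : (bc K u).1 = u.1.baseChange K := rfl
lemma bc_snd (u : Module.End F V × Module.End F W) : (bc K u).2 = u.2.baseChange K := rfl

lemma bc_injective : Function.Injective (bc K : (Module.End F V × Module.End F W) →+* _) := by
  intro u v huv
  have h1 : u.1.baseChange K = v.1.baseChange K := congrArg Prod.fst huv
  have h2 : u.2.baseChange K = v.2.baseChange K := congrArg Prod.snd huv
  exact Prod.ext (LinearMap.baseChangeHom_injective F V K h1)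
    (LinearMap.baseChangeHom_injective F W K h2)

lemma bc_aeval (u : Module.End F V × Module.End F W) (p : F[X]) :
    bc K (aeval u p) = aeval (bc K u) (p.map (algebraMap F K)) := by
  ext1
  · rw [aeval_fst, bc_fst, bc_fst, aeval_fst, Polynomial.aeval_map_algebraMap]
    exact (Polynomial.aeval_algHom_apply (Module.End.baseChangeHom F K V) u.1 p).symm
  · rw [aeval_snd, bc_snd, bc_snd, aeval_snd, Polynomial.aeval_map_algebraMap]
    exact (Polynomial.aeval_algHom_apply (Module.End.baseChangeHom F K W) u.2 p).symm

lemma IsAdj.mul {B : V →ₗ[F] V →ₗ[F] F} {D : W →ₗ[F] W →ₗ[F] F}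
    {u u' v v' : Module.End F V × Module.End F W} (h : IsAdj B D u u') (h' : IsAdj B D v v') :
    IsAdj B D (u * v) (v' * u') := by
  refine ⟨fun a b => ?_, fun a b => ?_⟩
  · rw [Prod.fst_mul, Prod.fst_mul, Module.End.mul_apply, Module.End.mul_apply, h.1, h'.1]
  · rw [Prod.snd_mul, Prod.snd_mul, Module.End.mul_apply, Module.End.mul_apply, h.2, h'.2]

lemma IsAdj.add {B : V →ₗ[F] V →ₗ[F] F} {D : W →ₗ[F] W →ₗ[F] F}
    {u u' v v' : Module.End F V × Module.End F W} (h : IsAdj B D u u') (h' : IsAdj B D v v') :
    IsAdj B D (u + v) (u' + v') := by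
  refine ⟨fun a b => ?_, fun a b => ?_⟩
  · simp [h.1, h'.1]
  · simp [h.2, h'.2]

lemma IsAdj.pow {B : V →ₗ[F] V →ₗ[F] F} {D : W →ₗ[F] W →ₗ[F] F}
    {u u' : Module.End F V × Module.End F W} (h : IsAdj B D u u') (n : ℕ) :
    IsAdj B D (u ^ n) (u' ^ n) := by
  induction n with
  | zero => exact ⟨fun a b => by simp, fun a b => by simp⟩
  | succ n ih => rw [pow_succ, pow_succ']; exact ih.mul h

lemma IsAdj.aeval {B : V →ₗ[F] V →ₗ[F] F} {D : W →ₗ[F] W →ₗ[F] F}
    {u u' : Module.End F V × Module.End F W} (h : IsAdj B D u u') (p : F[X]) :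
    IsAdj B D (Polynomial.aeval u p) (Polynomial.aeval u' p) := by
  induction p using Polynomial.induction_on' with
  | add p q hp hq => rw [map_add, map_add]; exact hp.add hq
  | monomial n a =>
    rw [aeval_monomial, aeval_monomial, ← Algebra.smul_def, ← Algebra.smul_def]
    have h1 := (h.pow n).1
    have h2 := (h.pow n).2
    rw [Prod.pow_fst, Prod.pow_fst] at h1
    rw [Prod.pow_snd, Prod.pow_snd] at h2
    refine ⟨fun x y => ?_, fun x y => ?_⟩
    · simp only [Prod.smul_fst, Prod.pow_fst, LinearMap.smul_apply, map_smul, h1]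
    · simp only [Prod.smul_snd, Prod.pow_snd, LinearMap.smul_apply, map_smul, h2]

variable (K) in
/-- the image of `A` -/
noncomputable def imA (A : Subring (Module.End F V × Module.End F W)) :
    Subring (Module.End K (K ⊗[F] V) × Module.End K (K ⊗[F] W)) := A.map (bc K)

variable (K) in
/-- the `K`-algebra generated by the image of `A` -/
noncomputable def algK (A : Subring (Module.End F V × Module.End F W)) :
    Subalgebra K (Module.End K (K ⊗[F] V) × Module.End K (K ⊗[F] W)) :=
  Algebra.adjoin K (imA K A : Set (Module.End K (K ⊗[F] V) × Module.End K (K ⊗[F] W)))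

lemma bc_mem (A : Subring (Module.End F V × Module.End F W)) {u : Module.End F V × Module.End F W}
    (hu : u ∈ A) : bc K u ∈ algK K A :=
  Algebra.subset_adjoin (Subring.mem_map.mpr ⟨u, hu, rfl⟩)

theorem setting_algK [FiniteDimensional F V] [FiniteDimensional F W]
    (A : Subring (Module.End F V × Module.End F W)) (B : V →ₗ[F] V →ₗ[F] F)
    (D : W →ₗ[F] W →ₗ[F] F) (symm : ∀ x y, B x y = B y x) (alt : ∀ x y, D x y = - D y x)
    (ndB : ∀ x, (∀ y, B x y = 0) → x = 0) (ndD : ∀ x, (∀ y, D x y = 0) → x = 0)
    (adj : ∀ u ∈ A, ∃ v ∈ A, IsAdj B D u v) :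
    Setting (bcForm K B) (bcForm K D) (algK K A) where
  symm x y := by
    have := bcForm_swap (K := K) B 1 (fun x y => by rw [one_mul]; exact symm x y) x y
    rwa [map_one, one_mul] at this
  alt x y := by
    have := bcForm_swap (K := K) D (-1) (fun x y => by rw [neg_one_mul]; exact alt x y) x y
    rwa [map_neg, map_one, neg_one_mul] at this
  ndB := fun x hx => bcForm_nd B 1 (fun x y => by rw [one_mul]; exact symm x y) ndB x hx
  ndC := fun x hx => bcForm_nd D (-1) (fun x y => by rw [neg_one_mul]; exact alt x y) ndD x hx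
  adj := by
    intro s hs
    refine Algebra.adjoin_induction
      (p := fun s _ => ∃ t ∈ algK K A, IsAdj (bcForm K B) (bcForm K D) s t) ?_ ?_ ?_ ?_ hs
    · rintro x hx
      obtain ⟨u, hu, rfl⟩ := Subring.mem_map.mp hx
      obtain ⟨v, hv, huv⟩ := adj u hu
      exact ⟨bc K v, bc_mem A hv, fun x y => bcForm_adj B u.1 v.1 huv.1 x y,
        fun x y => bcForm_adj D u.2 v.2 huv.2 x y⟩
    · intro r
      refine ⟨algebraMap K _ r, (algK K A).algebraMap_mem r, fun x y => ?_, fun x y => ?_⟩
      · rw [Prod.algebraMap_apply]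
        simp
      · rw [Prod.algebraMap_apply]
        simp
    · rintro x y _ _ ⟨x', hx', hx⟩ ⟨y', hy', hy⟩
      refine ⟨x' + y', (algK K A).add_mem hx' hy', fun a b => ?_, fun a b => ?_⟩
      · simp [hx.1, hy.1]
      · simp [hx.2, hy.2]
    · rintro x y _ _ ⟨x', hx', hx⟩ ⟨y', hy', hy⟩
      refine ⟨y' * x', (algK K A).mul_mem hy' hx', fun a b => ?_, fun a b => ?_⟩
      · rw [Prod.fst_mul, Prod.fst_mul, Module.End.mul_apply, Module.End.mul_apply, hx.1, hy.1]
      · rw [Prod.snd_mul, Prod.snd_mul, Module.End.mul_apply, Module.End.mul_apply, hx.2, hy.2]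

end alg

/-- **Descent.** -/
theorem descent {F V W : Type*} [Field F] [CharZero F] [AddCommGroup V] [Module F V]
    [FiniteDimensional F V] [AddCommGroup W] [Module F W] [FiniteDimensional F W]
    {K : Type*} [Field K] [Algebra F K] (A : Subring (Module.End F V × Module.End F W))
    (smul_mem : ∀ (q : ℚ) (u : Module.End F V × Module.End F W), u ∈ A → (q : F) • u ∈ A)
    (trace_rat : ∀ u ∈ A, ∃ q : ℚ, LinearMap.trace F V u.1 - LinearMap.trace F W u.2 = (q : F))
    (h : ((1 : Module.End K (K ⊗[F] V)), (0 : Module.End K (K ⊗[F] W))) ∈ algK K A) :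
    ((1 : Module.End F V), (0 : Module.End F W)) ∈ A := by
  have : CharZero K := charZero_of_injective_algebraMap (algebraMap F K).injective
  have h1 : ((1 : Module.End K (K ⊗[F] V)), (0 : Module.End K (K ⊗[F] W))) ∈ imA K A := by
    apply Pool.Agent.Helper17.Sign.proj_mem_of_span
    · intro q u hu
      obtain ⟨a, ha, rfl⟩ := Subring.mem_map.mp hu
      refine Subring.mem_map.mpr ⟨(q : F) • a, smul_mem q a ha, ?_⟩
      ext1
      · change ((q : F) • a.1).baseChange K = (q : K) • a.1.baseChange K
        rw [LinearMap.baseChange_smul]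
        ext x
        simp [Algebra.smul_def, TensorProduct.smul_tmul']
      · change ((q : F) • a.2).baseChange K = (q : K) • a.2.baseChange K
        rw [LinearMap.baseChange_smul]
        ext x
        simp [Algebra.smul_def, TensorProduct.smul_tmul']
    · intro u hu
      obtain ⟨a, ha, rfl⟩ := Subring.mem_map.mp hu
      obtain ⟨q, hq⟩ := trace_rat a ha
      refine ⟨q, ?_⟩
      rw [bc_fst, bc_snd, LinearMap.trace_baseChange, LinearMap.trace_baseChange, ← map_sub, hq]
      simp
    · have h2 := h
      rw [algK, ← Subalgebra.mem_toSubmodule, Algebra.adjoin_eq_span] at h2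
      have h3 : Submonoid.closure (imA K A :
          Set (Module.End K (K ⊗[F] V) × Module.End K (K ⊗[F] W))) =
          (imA K A).toSubmonoid := Submonoid.closure_eq ((imA K A).toSubmonoid)
      rw [h3] at h2
      exact h2
  obtain ⟨a, ha, hae⟩ := Subring.mem_map.mp h1
  have h2 : a = (1, 0) := by
    apply bc_injective (K := K)
    rw [hae]
    ext1
    · change (1 : Module.End K (K ⊗[F] V)) = Module.End.baseChangeHom F K V 1
      rw [map_one]
    · change (0 : Module.End K (K ⊗[F] W)) = Module.End.baseChangeHom F K W 0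
      rw [map_zero]
  rwa [h2] at ha

end Pool.Agent.Helper37.Sign
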