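import Mathlib

/-! Algebras of pairs of endomorphisms of an orthogonal and a symplectic space which are closed
under taking adjoints: the ideal argument. -/

set_option autoImplicit false

namespace Pool.Agent.Helper37.Sign

open Polynomial Module

/-- An ideal of `K[X]` whose elements have no common root is the unit ideal. -/
lemma one_mem_of_no_common_root {K : Type*} [Field K] [IsAlgClosed K] (I : Ideal K[X])
    (h : ∀ α : K, ∃ p ∈ I, p.eval α ≠ 0) : (1 : K[X]) ∈ I := by
  obtain ⟨g, hg⟩ := (IsPrincipalIdealRing.principal I).principal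
  have hmem : ∀ p ∈ I, g ∣ p := fun p hp => by
    rw [hg] at hp
    exact Ideal.mem_span_singleton.mp hp
  have hdeg : g.degree = 0 := by
    by_contra hd
    obtain ⟨α, hα⟩ := IsAlgClosed.exists_root g hd
    obtain ⟨p, hp, hne⟩ := h α
    exact hne (eval_eq_zero_of_dvd_of_eval_eq_zero (hmem p hp) hα)
  have hu : IsUnit g := isUnit_iff_degree_eq_zero.mpr hdeg
  have hgI : g ∈ I := by rw [hg]; exact Ideal.mem_span_singleton_self g
  obtain ⟨v, hv⟩ := hu.exists_right_inv
  rw [← hv]
  exact I.mul_mem_right v hgI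

section rank
variable {K V : Type*} [Field K] [AddCommGroup V] [Module K V] [FiniteDimensional K V]

/-- At a simple root of the characteristic polynomial some polynomial in the operator has
rank one. -/
lemma exists_rank_one (f : Module.End K V) (α : K) (hm : f.charpoly.rootMultiplicity α = 1) :
    ∃ (g q : K[X]) (e : V) (ψ : V →ₗ[K] K), f.charpoly = (X - C α) * g ∧ g.eval α ≠ 0 ∧
      q.eval α = 1 ∧ ψ e = 1 ∧ f e = α • e ∧ (∀ x, aeval f q x = ψ x • e) ∧
      (∀ x, f x = α • x → ∃ c : K, x = c • e) := by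
  have hne : f.charpoly ≠ 0 := f.charpoly_monic.ne_zero
  have hroot : f.charpoly.IsRoot α := by
    rw [← Polynomial.rootMultiplicity_pos hne]; omega
  obtain ⟨g, hg⟩ := dvd_iff_isRoot.mpr hroot
  have hgα : g.eval α ≠ 0 := by
    intro h0
    have h1 : g ≠ 0 := by rintro rfl; rw [mul_zero] at hg; exact hne hg
    have h2 : 0 < g.rootMultiplicity α := (Polynomial.rootMultiplicity_pos h1).mpr h0
    have h3 : f.charpoly.rootMultiplicity α = 1 + g.rootMultiplicity α := by
      rw [hg, Polynomial.rootMultiplicity_mul (by rw [← hg]; exact hne),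
        Polynomial.rootMultiplicity_X_sub_C_self]
    omega
  obtain ⟨e, he⟩ := ((Module.End.hasEigenvalue_iff_isRoot_charpoly f α).mpr hroot).exists_hasEigenvector
  have hdim : finrank K (f.eigenspace α) = 1 := by
    have h1 : finrank K (f.eigenspace α) ≤ finrank K (f.maxGenEigenspace α) := by
      apply Submodule.finrank_mono
      exact Module.End.genEigenspace_le_maximal f α 1
    rw [LinearMap.finrank_maxGenEigenspace_eq, hm] at h1
    have h2 : 0 < finrank K (f.eigenspace α) := by
      rw [Module.finrank_pos_iff]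
      exact ⟨⟨⟨e, he.1⟩, 0, fun h => he.2 (congrArg Subtype.val h)⟩⟩
    omega
  have hspan : ∀ x, f x = α • x → ∃ c : K, x = c • e := by
    intro x hx
    have hx' : x ∈ f.eigenspace α := Module.End.mem_eigenspace_iff.mpr hx
    obtain ⟨c, hc⟩ := (finrank_eq_one_iff_of_nonzero' (⟨e, he.1⟩ : f.eigenspace α)
      (fun h => he.2 (congrArg Subtype.val h))).mp hdim ⟨x, hx'⟩
    exact ⟨c, (congrArg Subtype.val hc).symm⟩
  obtain ⟨φ, hφ⟩ := Module.Projective.exists_dual_eq_one K he.2
  set q : K[X] := C (g.eval α)⁻¹ * g with hq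
  have hqα : q.eval α = 1 := by
    rw [hq, eval_mul, eval_C, inv_mul_cancel₀ hgα]
  have hfe : f e = α • e := he.apply_eq_smul
  have hqe : aeval f q e = e := by
    rw [Module.End.aeval_apply_of_hasEigenvector he, hqα, one_smul]
  refine ⟨g, q, e, φ ∘ₗ aeval f q, hg, hgα, hqα, ?_, hfe, ?_, hspan⟩
  · rw [LinearMap.comp_apply, hqe, hφ]
  · intro x
    have h1 : f (aeval f q x) = α • aeval f q x := by
      have h2 : aeval f ((X - C α) * q) x = 0 := by
        have h3 : (X - C α) * q = C (g.eval α)⁻¹ * f.charpoly := by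
          rw [hq, hg]; ring
        rw [h3, map_mul, LinearMap.aeval_self_charpoly, mul_zero]; rfl
      rw [map_mul, map_sub, aeval_X, aeval_C, Module.End.mul_apply, LinearMap.sub_apply,
        Module.algebraMap_end_apply, sub_eq_zero] at h2
      exact h2
    obtain ⟨c, hc⟩ := hspan _ h1
    rw [LinearMap.comp_apply, hc, map_smul, hφ, smul_eq_mul, mul_one]

end rank

section adj
variable {K V W : Type*} [Field K] [AddCommGroup V] [Module K V] [AddCommGroup W] [Module K W]

/-- `v` is the adjoint of `u`. -/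
def IsAdj (B : V →ₗ[K] V →ₗ[K] K) (C : W →ₗ[K] W →ₗ[K] K)
    (u v : Module.End K V × Module.End K W) : Prop :=
  (∀ x y, B (u.1 x) y = B x (v.1 y)) ∧ ∀ x y, C (u.2 x) y = C x (v.2 y)

lemma aeval_fst (u : Module.End K V × Module.End K W) (p : K[X]) :
    (aeval u p).1 = aeval u.1 p :=
  (Polynomial.aeval_algHom_apply (AlgHom.fst K (Module.End K V) (Module.End K W)) u p).symm

lemma aeval_snd (u : Module.End K V × Module.End K W) (p : K[X]) :
    (aeval u p).2 = aeval u.2 p :=
  (Polynomial.aeval_algHom_apply (AlgHom.snd K (Module.End K V) (Module.End K W)) u p).symm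

lemma aeval_mem (S : Subalgebra K (Module.End K V × Module.End K W))
    {u : Module.End K V × Module.End K W} (hu : u ∈ S) (p : K[X]) : aeval u p ∈ S :=
  (Algebra.adjoin_le (by simpa using hu)) (Polynomial.aeval_mem_adjoin_singleton K u)

/-- adjoints are unique -/
lemma adj_unique (B : V →ₗ[K] V →ₗ[K] K) (c : K) (hB : ∀ x y, B x y = c * B y x)
    (hn : ∀ x, (∀ y, B x y = 0) → x = 0) (v v' : Module.End K V)
    (h : ∀ x y, B x (v y) = B x (v' y)) : v = v' := by
  ext y
  rw [← sub_eq_zero]
  apply hn
  intro x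
  rw [hB, map_sub, h, sub_self, mul_zero]

lemma adj_swap (B : V →ₗ[K] V →ₗ[K] K) (c : K) (hB : ∀ x y, B x y = c * B y x)
    {u v : Module.End K V} (h : ∀ x y, B (u x) y = B x (v y)) (x y : V) :
    B (v x) y = B x (u y) := by
  rw [hB, ← h, hB x]

lemma mul_left_mem (S : Subalgebra K (Module.End K V × Module.End K W))
    {s : Module.End K V × Module.End K W} (hs : s ∈ S) {x : Module.End K V}
    (hx : (x, (0 : Module.End K W)) ∈ S) : (s.1 * x, (0 : Module.End K W)) ∈ S := by
  have := S.mul_mem hs hx
  have e : s * (x, (0 : Module.End K W)) = (s.1 * x, 0) := by ext1 <;> simp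
  rwa [e] at this

lemma mul_right_mem (S : Subalgebra K (Module.End K V × Module.End K W))
    {s : Module.End K V × Module.End K W} (hs : s ∈ S) {x : Module.End K V}
    (hx : (x, (0 : Module.End K W)) ∈ S) : (x * s.1, (0 : Module.End K W)) ∈ S := by
  have := S.mul_mem hx hs
  have e : (x, (0 : Module.End K W)) * s = (x * s.1, 0) := by ext1 <;> simp
  rwa [e] at this

lemma fst_mem (S : Subalgebra K (Module.End K V × Module.End K W))
    {s : Module.End K V × Module.End K W} (hs : s ∈ S) (h : s.2 = 0) :
    (s.1, (0 : Module.End K W)) ∈ S := by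
  have e : s = (s.1, 0) := Prod.ext rfl h
  rwa [e] at hs

end adj

end Pool.Agent.Helper37.Sign
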