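import Mathlib

/-! Operators which are symmetric for a nondegenerate alternating form: all multiplicities of the
characteristic polynomial are even. -/

set_option autoImplicit false

namespace Pool.Agent.Helper37.Sign

open Polynomial Module

variable {K W : Type*} [Field K] [CharZero K] [AddCommGroup W] [Module K W]
  [FiniteDimensional K W]

/-- A space with a nondegenerate alternating form has even dimension. -/
lemma even_finrank (D : W →ₗ[K] W →ₗ[K] K) (alt : ∀ x y, D x y = - D y x)
    (nd : ∀ x, (∀ y, D x y = 0) → x = 0) : Even (finrank K W) := by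
  classical
  let b := Module.finBasis K W
  let M : Matrix (Fin (finrank K W)) (Fin (finrank K W)) K := Matrix.of fun i j => D (b i) (b j)
  have hT : M.transpose = -M := by
    ext i j
    simp only [Matrix.transpose_apply, Matrix.neg_apply, M, Matrix.of_apply]
    exact alt _ _
  have hdet : M.det ≠ 0 := by
    intro h0
    obtain ⟨v, hv, hMv⟩ := Matrix.exists_mulVec_eq_zero_iff.mpr h0
    apply hv
    have hx : ∑ j, v j • b j = 0 := by
      apply nd
      intro y
      rw [alt, neg_eq_zero]
      have h1 : ∀ i, D (b i) (∑ j, v j • b j) = 0 := by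
        intro i
        have := congrFun hMv i
        simp only [Matrix.mulVec, dotProduct, M, Matrix.of_apply, Pi.zero_apply] at this
        rw [map_sum, ← this]
        refine Finset.sum_congr rfl fun j _ => ?_
        rw [map_smul, smul_eq_mul, mul_comm]
      generalize ∑ j, v j • b j = x at h1
      rw [← b.sum_repr y, map_sum, LinearMap.sum_apply]
      refine Finset.sum_eq_zero fun i _ => ?_
      rw [map_smul, LinearMap.smul_apply, h1, smul_zero]
    funext j
    have := b.repr_sum_self v
    rw [hx] at this
    rw [← congrFun this j]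
    simp
  have h1 := Matrix.det_neg M
  rw [← hT, Matrix.det_transpose, Fintype.card_fin] at h1
  by_contra hodd
  rw [Nat.not_even_iff_odd] at hodd
  rw [hodd.neg_one_pow, neg_one_mul] at h1
  have h2 : (2 : K) * M.det = 0 := by linear_combination h1
  exact hdet ((mul_eq_zero.mp h2).resolve_left two_ne_zero)

/-- **Even multiplicities.** -/
lemma even_rootMultiplicity [IsAlgClosed K] (D : W →ₗ[K] W →ₗ[K] K)
    (alt : ∀ x y, D x y = - D y x) (nd : ∀ x, (∀ y, D x y = 0) → x = 0) (z : Module.End K W)
    (hz : ∀ x y, D (z x) y = D x (z y)) (μ : K) : Even (z.charpoly.rootMultiplicity μ) := by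
  rw [← LinearMap.finrank_maxGenEigenspace_eq]
  set G := z.maxGenEigenspace μ with hG
  -- orthogonality
  have horth : ∀ ν, ν ≠ μ → ∀ x ∈ G, ∀ y ∈ z.maxGenEigenspace ν, D x y = 0 := by
    intro ν hν x hx y hy
    obtain ⟨k, hk⟩ := (Module.End.mem_maxGenEigenspace z μ x).mp hx
    set N : Module.End K W := (z - μ • 1) ^ k with hN
    have hNs : ∀ a b, D (N a) b = D a (N b) := by
      intro a b
      rw [hN]
      clear hk hN hx hy
      clear N
      induction k generalizing a b with
      | zero => simp
      | succ k ih =>
        rw [pow_succ, Module.End.mul_apply, ih]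
        rw [← pow_succ, pow_succ', Module.End.mul_apply]
        simp only [LinearMap.sub_apply, LinearMap.smul_apply, Module.End.one_apply, map_sub, map_smul, hz]
    -- N maps the other generalized eigenspace onto itself
    have hmaps : ∀ a ∈ z.maxGenEigenspace ν, N a ∈ z.maxGenEigenspace ν := by
      have hc : Commute z N := by
        rw [hN]
        exact ((Commute.refl z).sub_right ((Commute.one_right z).smul_right μ)).pow_right k
      exact fun a ha => z.mapsTo_maxGenEigenspace_of_comm hc ν ha
    have hinj : ∀ a ∈ z.maxGenEigenspace ν, N a = 0 → a = 0 := by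
      intro a ha h0
      have h1 : a ∈ z.maxGenEigenspace μ := (Module.End.mem_maxGenEigenspace z μ a).mpr ⟨k, h0⟩
      have hdis : Disjoint (z.maxGenEigenspace μ) (z.maxGenEigenspace ν) :=
        (z.independent_maxGenEigenspace).pairwiseDisjoint hν.symm
      exact (Submodule.disjoint_def.mp hdis) a h1 ha
    let NR : Module.End K (z.maxGenEigenspace ν) := N.restrict hmaps
    have hNRinj : Function.Injective NR := by
      rw [← LinearMap.ker_eq_bot, LinearMap.ker_eq_bot']
      intro a ha
      have : N (a : W) = 0 := congrArg Subtype.val ha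
      exact Subtype.ext (hinj a.1 a.2 this)
    obtain ⟨y', hy'⟩ := (LinearMap.injective_iff_surjective.mp hNRinj) ⟨y, hy⟩
    have hy2 : N (y' : W) = y := congrArg Subtype.val hy'
    rw [← hy2, ← hNs, hk, map_zero, LinearMap.zero_apply]
  let DG : G →ₗ[K] G →ₗ[K] K := D.domRestrict₁₂ G G
  refine even_finrank DG (fun x y => alt _ _) ?_
  intro x hx
  apply Subtype.ext
  apply nd
  intro y
  have hy : y ∈ ⨆ ν, z.maxGenEigenspace ν := by
    rw [Module.End.iSup_maxGenEigenspace_eq_top]; trivial
  induction hy using Submodule.iSup_induction' with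
  | mem ν y hy =>
    by_cases hν : ν = μ
    · subst hν
      exact hx ⟨y, hy⟩
    · exact horth ν hν x x.2 y hy
  | zero => simp
  | add a b _ _ ha hb => rw [map_add, ha, hb, add_zero]

end Pool.Agent.Helper37.Sign
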