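import Pool.Agent.Helper37.Sign.Core

/-! The two main lemmas over an algebraically closed field. -/

set_option autoImplicit false

namespace Pool.Agent.Helper37.Sign

open Polynomial Module

variable {K V W : Type*} [Field K] [IsAlgClosed K] [CharZero K]
  [AddCommGroup V] [Module K V] [FiniteDimensional K V]
  [AddCommGroup W] [Module K W] [FiniteDimensional K W]

/-- An algebra of pairs of operators closed under adjoints with respect to a symmetric and an
alternating form. -/
structure Setting (B : V →ₗ[K] V →ₗ[K] K) (C : W →ₗ[K] W →ₗ[K] K)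
    (S : Subalgebra K (Module.End K V × Module.End K W)) : Prop where
  symm : ∀ x y, B x y = B y x
  alt : ∀ x y, C x y = - C y x
  ndB : ∀ x, (∀ y, B x y = 0) → x = 0
  ndC : ∀ x, (∀ y, C x y = 0) → x = 0
  adj : ∀ s ∈ S, ∃ t ∈ S, IsAdj B C s t

variable {B : V →ₗ[K] V →ₗ[K] K} {C : W →ₗ[K] W →ₗ[K] K}
  {S : Subalgebra K (Module.End K V × Module.End K W)}

omit [IsAlgClosed K] [CharZero K] [FiniteDimensional K V] [FiniteDimensional K W] in
lemma Setting.swapB (h : Setting B C S) {s t : Module.End K V × Module.End K W}
    (hst : IsAdj B C s t) (x y : V) : B (t.1 x) y = B x (s.1 y) :=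
  adj_swap B 1 (fun x y => by rw [one_mul]; exact h.symm x y) hst.1 x y

omit [IsAlgClosed K] [CharZero K] [FiniteDimensional K V] [FiniteDimensional K W] in
lemma Setting.swapC (h : Setting B C S) {s t : Module.End K V × Module.End K W}
    (hst : IsAdj B C s t) (x y : W) : C (t.2 x) y = C x (s.2 y) :=
  adj_swap C (-1) (fun x y => by rw [neg_one_mul]; exact h.alt x y) hst.2 x y

omit [IsAlgClosed K] [FiniteDimensional K V] [FiniteDimensional K W] in
lemma Setting.alt_self (h : Setting B C S) (x : W) : C x x = 0 := by
  have h1 := h.alt x x
  have h2 : (2 : K) * C x x = 0 := by linear_combination h1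
  exact (mul_eq_zero.mp h2).resolve_left two_ne_zero

/-- **Core lemma.**  `u` symmetric with its common eigenvalues simple on `V`, and `w` with its
common eigenvalues simple on `W`: then the projector to `V` is in the algebra. -/
theorem Setting.core (h : Setting B C S) {u w : Module.End K V × Module.End K W} (hu : u ∈ S)
    (hw : w ∈ S) (hsym : IsAdj B C u u)
    (h1 : ∀ α, u.1.charpoly.IsRoot α → u.2.charpoly.IsRoot α →
      u.1.charpoly.rootMultiplicity α = 1)
    (h2 : ∀ β, w.2.charpoly.IsRoot β → w.1.charpoly.IsRoot β →
      w.2.charpoly.rootMultiplicity β = 1) :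
    ((1 : Module.End K V), (0 : Module.End K W)) ∈ S := by
  -- step 1: the spectral projectors at common eigenvalues
  have step : ∀ (q : K[X]) (e : V) (ψ : V →ₗ[K] K), ψ e = 1 → (∀ x, aeval u.1 q x = ψ x • e) →
      (aeval u.1 q, (0 : Module.End K W)) ∈ S := by
    intro q e ψ hψ hE
    set E := aeval u.1 q with hEdef
    have hEmem : aeval u q ∈ S := aeval_mem S hu q
    have hE1 : (aeval u q).1 = E := aeval_fst u q
    have hEE : ∀ z : Module.End K V, E * z * E = ψ (z e) • E := by
      intro z
      ext x
      rw [Module.End.mul_apply, Module.End.mul_apply, LinearMap.smul_apply, hE x, map_smul,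
        map_smul, hE (z e), smul_smul, smul_smul, mul_comm]
    -- symmetry of E
    have hsymE : IsAdj B C (aeval u q) (aeval u q) := by
      have hB : ∀ (p : K[X]) (x y : V), B (aeval u.1 p x) y = B x (aeval u.1 p y) := by
        intro p
        induction p using Polynomial.induction_on' with
        | add p q hp hq => intro x y; simp [hp, hq]
        | monomial n a =>
          intro x y
          rw [aeval_monomial, Module.End.mul_apply, Module.End.mul_apply,
            Module.algebraMap_end_apply, Module.algebraMap_end_apply, map_smul, map_smul,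
            LinearMap.smul_apply]
          congr 1
          induction n generalizing x y with
          | zero => simp
          | succ n ih => rw [pow_succ, Module.End.mul_apply, ih, hsym.1, ← Module.End.mul_apply,
              ← pow_succ']; rfl
      have hC : ∀ (p : K[X]) (x y : W), C (aeval u.2 p x) y = C x (aeval u.2 p y) := by
        intro p
        induction p using Polynomial.induction_on' with
        | add p q hp hq => intro x y; simp [hp, hq]
        | monomial n a =>
          intro x y
          rw [aeval_monomial, Module.End.mul_apply, Module.End.mul_apply,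
            Module.algebraMap_end_apply, Module.algebraMap_end_apply, map_smul, map_smul,
            LinearMap.smul_apply]
          congr 1
          induction n generalizing x y with
          | zero => simp
          | succ n ih => rw [pow_succ, Module.End.mul_apply, ih, hsym.2, ← Module.End.mul_apply,
              ← pow_succ']; rfl
      refine ⟨fun x y => ?_, fun x y => ?_⟩
      · rw [aeval_fst]; exact hB q x y
      · rw [aeval_snd]; exact hC q x y
    -- ⟨e,e⟩ ≠ 0 and ψ x = ⟨x,e⟩ / ⟨e,e⟩
    have hEs : ∀ x y, B (E x) y = B x (E y) := fun x y => by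
      have := hsymE.1 x y
      rwa [hE1] at this
    have hpsi : ∀ x, ψ x * B e e = B x e := by
      intro x
      have h3 := hEs x e
      rw [hE x, hE e, hψ, one_smul, map_smul, LinearMap.smul_apply, smul_eq_mul] at h3
      exact h3
    have hee : B e e ≠ 0 := by
      intro h0
      have he : e = 0 := by
        apply h.ndB
        intro y
        rw [h.symm, ← hpsi y, h0, mul_zero]
      rw [he, map_zero] at hψ
      exact zero_ne_one hψ
    -- the ideal
    let I : Ideal K[X] :=
      { carrier := {p | ∀ a ∈ S, ∀ b ∈ S, (E * (a.1 * aeval w.1 p * b.1) * E, (0 : Module.End K W)) ∈ S}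
        add_mem' := by
          intro p q hp hq a ha b hb
          have h3 := S.add_mem (hp a ha b hb) (hq a ha b hb)
          have e3 : (E * (a.1 * aeval w.1 p * b.1) * E, (0 : Module.End K W)) +
              (E * (a.1 * aeval w.1 q * b.1) * E, (0 : Module.End K W)) =
              (E * (a.1 * aeval w.1 (p + q) * b.1) * E, 0) := by
            ext1
            · simp only [Prod.fst_add, map_add]; noncomm_ring
            · simp
          rwa [e3] at h3
        zero_mem' := by
          intro a _ b _
          have e3 : (E * (a.1 * aeval w.1 (0 : K[X]) * b.1) * E, (0 : Module.End K W)) = 0 := by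
            ext1
            · simp
            · simp
          rw [e3]; exact S.zero_mem
        smul_mem' := by
          intro c p hp a ha b hb
          have h3 := hp (a * aeval w c) (S.mul_mem ha (aeval_mem S hw c)) b hb
          have e3 : E * ((a * aeval w c).1 * aeval w.1 p * b.1) * E =
              E * (a.1 * aeval w.1 (c • p) * b.1) * E := by
            rw [Prod.fst_mul, aeval_fst, smul_eq_mul, map_mul]; noncomm_ring
          rwa [e3] at h3 }
    have hI1 : (1 : K[X]) ∈ I := by
      apply one_mem_of_no_common_root
      intro β
      by_cases hb1 : w.1.charpoly.IsRoot β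
      swap
      · refine ⟨w.1.charpoly, ?_, hb1⟩
        intro a _ b _
        rw [LinearMap.aeval_self_charpoly]
        have e3 : (E * (a.1 * 0 * b.1) * E, (0 : Module.End K W)) = 0 := by
          ext1
          · simp
          · simp
        rw [e3]; exact S.zero_mem
      by_cases hb2 : w.2.charpoly.IsRoot β
      swap
      · refine ⟨w.2.charpoly, ?_, hb2⟩
        intro a ha b hb
        have h3 : aeval w w.2.charpoly ∈ S := aeval_mem S hw _
        have h4 : ((aeval w w.2.charpoly).1, (0 : Module.End K W)) ∈ S :=
          fst_mem S h3 (by rw [aeval_snd, LinearMap.aeval_self_charpoly])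
        have h5 := mul_right_mem S hEmem (mul_left_mem S hEmem
          (mul_right_mem S hb (mul_left_mem S ha h4)))
        rw [hE1, aeval_fst] at h5
        exact h5
      obtain ⟨g, r, e', φ, -, -, hrβ, -, -, hr, -⟩ := exists_rank_one w.2 β (h2 β hb2 hb1)
      refine ⟨r, ?_, by rw [hrβ]; exact one_ne_zero⟩
      intro a ha b hb
      set η : Module.End K V × Module.End K W := a * aeval w r * b with hη
      have hηS : η ∈ S := S.mul_mem (S.mul_mem ha (aeval_mem S hw r)) hb
      have hη1 : η.1 = a.1 * aeval w.1 r * b.1 := by
        rw [hη, Prod.fst_mul, Prod.fst_mul, aeval_fst]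
      have hη2 : ∀ x, η.2 x = φ (b.2 x) • a.2 e' := by
        intro x
        rw [hη, Prod.snd_mul, Prod.snd_mul, aeval_snd, Module.End.mul_apply, Module.End.mul_apply,
          hr, map_smul]
      obtain ⟨τ, hτS, hτ⟩ := h.adj η hηS
      -- the odd part of τ E η vanishes
      have hzero : (τ * aeval u q * η).2 = 0 := by
        ext x
        rw [LinearMap.zero_apply]
        apply h.ndC
        intro y
        rw [Prod.snd_mul, Prod.snd_mul, Module.End.mul_apply, Module.End.mul_apply,
          h.swapC hτ, hη2 x, hη2 y]
        simp only [map_smul, LinearMap.smul_apply, smul_eq_mul]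
        have h3 : C ((aeval u q).2 (a.2 e')) (a.2 e') = 0 := by
          have h4 := hsymE.2 (a.2 e') (a.2 e')
          have h5 := h.alt ((aeval u q).2 (a.2 e')) (a.2 e')
          rw [← h4] at h5
          have h6 : (2 : K) * C ((aeval u q).2 (a.2 e')) (a.2 e') = 0 := by
            linear_combination h5
          exact (mul_eq_zero.mp h6).resolve_left two_ne_zero
        rw [h3]; ring
      have h3 : ((τ * aeval u q * η).1, (0 : Module.End K W)) ∈ S :=
        fst_mem S (S.mul_mem (S.mul_mem hτS hEmem) hηS) hzero
      rw [Prod.fst_mul, Prod.fst_mul, hE1] at h3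
      have h4 := mul_right_mem S hEmem (mul_left_mem S hEmem h3)
      rw [hE1] at h4
      have h5 : E * (τ.1 * E * η.1) * E = (ψ (η.1 e) * ψ (η.1 e)) • E := by
        have e1 : E * (τ.1 * E * η.1) * E = (E * τ.1 * E) * η.1 * E := by noncomm_ring
        rw [e1, hEE, smul_mul_assoc, smul_mul_assoc, hEE, smul_smul]
        congr 2
        have h6 : ψ (τ.1 e) * B e e = ψ (η.1 e) * B e e := by
          rw [hpsi, hpsi, h.swapB hτ, h.symm]
        exact mul_right_cancel₀ hee h6
      rw [h5] at h4
      rw [← hη1, hEE]
      by_cases h0 : ψ (η.1 e) = 0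
      · rw [h0, zero_smul]; exact S.zero_mem
      · have h6 := S.smul_mem h4 (ψ (η.1 e))⁻¹
        have e3 : (ψ (η.1 e))⁻¹ • ((ψ (η.1 e) * ψ (η.1 e)) • E, (0 : Module.End K W)) =
            (ψ (η.1 e) • E, 0) := by
          ext1
          · rw [Prod.smul_fst, smul_smul, ← mul_assoc, inv_mul_cancel₀ h0, one_mul]
          · simp
        rwa [e3] at h6
    have h3 := hI1 1 S.one_mem 1 S.one_mem
    have e3 : E * ((1 : Module.End K V × Module.End K W).1 * aeval w.1 (1 : K[X]) *
        (1 : Module.End K V × Module.End K W).1) * E = E := by
      rw [Prod.fst_one, map_one, hEE]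
      simp [hψ]
    rw [e3] at h3
    exact h3
  -- step 2
  let I : Ideal K[X] :=
    { carrier := {p | (aeval u.1 p, (0 : Module.End K W)) ∈ S}
      add_mem' := by
        intro p q hp hq
        have h3 := S.add_mem hp hq
        have e3 : (aeval u.1 p, (0 : Module.End K W)) + (aeval u.1 q, (0 : Module.End K W)) =
            (aeval u.1 (p + q), 0) := by
          ext1
          · simp
          · simp
        rwa [e3] at h3
      zero_mem' := by
        have e3 : (aeval u.1 (0 : K[X]), (0 : Module.End K W)) = 0 := by
          ext1
          · simp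
          · simp
        change (aeval u.1 (0 : K[X]), (0 : Module.End K W)) ∈ S
        rw [e3]; exact S.zero_mem
      smul_mem' := by
        intro c p hp
        have h3 := mul_left_mem S (aeval_mem S hu c) hp
        rw [aeval_fst, ← map_mul] at h3
        exact h3 }
  have hI1 : (1 : K[X]) ∈ I := by
    apply one_mem_of_no_common_root
    intro α
    by_cases ha1 : u.1.charpoly.IsRoot α
    swap
    · refine ⟨u.1.charpoly, ?_, ha1⟩
      change (aeval u.1 u.1.charpoly, (0 : Module.End K W)) ∈ S
      rw [LinearMap.aeval_self_charpoly]
      exact S.zero_mem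
    by_cases ha2 : u.2.charpoly.IsRoot α
    swap
    · refine ⟨u.2.charpoly, ?_, ha2⟩
      have h3 : ((aeval u u.2.charpoly).1, (0 : Module.End K W)) ∈ S :=
        fst_mem S (aeval_mem S hu _) (by rw [aeval_snd, LinearMap.aeval_self_charpoly])
      rw [aeval_fst] at h3
      exact h3
    obtain ⟨g, q, e, ψ, -, -, hqα, hψ, -, hq, -⟩ := exists_rank_one u.1 α (h1 α ha1 ha2)
    exact ⟨q, step q e ψ hψ hq, by rw [hqα]; exact one_ne_zero⟩
  have h3 : (aeval u.1 (1 : K[X]), (0 : Module.End K W)) ∈ S := hI1
  rwa [map_one] at h3

end Pool.Agent.Helper37.Sign
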