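import Pool.Agent.Helper37.Sign.Main

/-! The case of a single common eigenvalue. -/

set_option autoImplicit false

namespace Pool.Agent.Helper37.Sign

open Polynomial Module

variable {K V W : Type*} [Field K] [IsAlgClosed K] [CharZero K]
  [AddCommGroup V] [Module K V] [FiniteDimensional K V]
  [AddCommGroup W] [Module K W] [FiniteDimensional K W]
  {B : V →ₗ[K] V →ₗ[K] K} {D : W →ₗ[K] W →ₗ[K] K}
  {S : Subalgebra K (Module.End K V × Module.End K W)}

omit [IsAlgClosed K] [CharZero K] [FiniteDimensional K V] [FiniteDimensional K W] in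
lemma one_of_snd (h : ((0 : Module.End K V), (1 : Module.End K W)) ∈ S) :
    ((1 : Module.End K V), (0 : Module.End K W)) ∈ S := by
  have h4 := S.sub_mem S.one_mem h
  have e : (1 : Module.End K V × Module.End K W) - (0, 1) = (1, 0) := by
    ext1 <;> simp
  rwa [e] at h4

omit [IsAlgClosed K] [CharZero K] [FiniteDimensional K V] [FiniteDimensional K W] in
lemma mul_left_mem' {s : Module.End K V × Module.End K W} (hs : s ∈ S) {x : Module.End K W}
    (hx : ((0 : Module.End K V), x) ∈ S) : ((0 : Module.End K V), s.2 * x) ∈ S := by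
  have := S.mul_mem hs hx
  have e : s * ((0 : Module.End K V), x) = (0, s.2 * x) := by ext1 <;> simp
  rwa [e] at this

omit [IsAlgClosed K] [CharZero K] [FiniteDimensional K V] [FiniteDimensional K W] in
lemma snd_mem {s : Module.End K V × Module.End K W} (hs : s ∈ S) (h : s.1 = 0) :
    ((0 : Module.End K V), s.2) ∈ S := by
  have e : s = (0, s.2) := Prod.ext h rfl
  rwa [e] at hs

/-- the polynomials `p` with `(0, p(w))` in the algebra -/
def idealW (S : Subalgebra K (Module.End K V × Module.End K W))
    {w : Module.End K V × Module.End K W} (hw : w ∈ S) : Ideal K[X] where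
  carrier := {p | ((0 : Module.End K V), aeval w.2 p) ∈ S}
  add_mem' := by
    intro p q hp hq
    have h3 := S.add_mem hp hq
    have e3 : ((0 : Module.End K V), aeval w.2 p) + ((0 : Module.End K V), aeval w.2 q) =
        (0, aeval w.2 (p + q)) := by
      ext1
      · simp
      · simp
    rwa [e3] at h3
  zero_mem' := by
    have e3 : ((0 : Module.End K V), aeval w.2 (0 : K[X])) = 0 := by
      ext1
      · simp
      · simp
    change ((0 : Module.End K V), aeval w.2 (0 : K[X])) ∈ S
    rw [e3]; exact S.zero_mem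
  smul_mem' := by
    intro c p hp
    have h3 := mul_left_mem' (aeval_mem S hw c) hp
    rw [aeval_snd, ← map_mul] at h3
    exact h3

/-- the polynomials `p` with `(p(w), 0)` in the algebra -/
def idealV (S : Subalgebra K (Module.End K V × Module.End K W))
    {w : Module.End K V × Module.End K W} (hw : w ∈ S) : Ideal K[X] where
  carrier := {p | (aeval w.1 p, (0 : Module.End K W)) ∈ S}
  add_mem' := by
    intro p q hp hq
    have h3 := S.add_mem hp hq
    have e3 : (aeval w.1 p, (0 : Module.End K W)) + (aeval w.1 q, (0 : Module.End K W)) =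
        (aeval w.1 (p + q), 0) := by
      ext1
      · simp
      · simp
    rwa [e3] at h3
  zero_mem' := by
    have e3 : (aeval w.1 (0 : K[X]), (0 : Module.End K W)) = 0 := by
      ext1
      · simp
      · simp
    change (aeval w.1 (0 : K[X]), (0 : Module.End K W)) ∈ S
    rw [e3]; exact S.zero_mem
  smul_mem' := by
    intro c p hp
    have h3 := mul_left_mem S (aeval_mem S hw c) hp
    rw [aeval_fst, ← map_mul] at h3
    exact h3

omit [IsAlgClosed K] [CharZero K] in
lemma charpoly_mem_idealW {w : Module.End K V × Module.End K W} (hw : w ∈ S) :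
    w.1.charpoly ∈ idealW S hw ∧ w.2.charpoly ∈ idealW S hw := by
  constructor
  · have h3 := snd_mem (aeval_mem S hw w.1.charpoly)
      (by rw [aeval_fst, LinearMap.aeval_self_charpoly])
    rw [aeval_snd] at h3
    exact h3
  · change ((0 : Module.End K V), aeval w.2 w.2.charpoly) ∈ S
    rw [LinearMap.aeval_self_charpoly]
    exact S.zero_mem

omit [IsAlgClosed K] [CharZero K] in
lemma charpoly_mem_idealV {w : Module.End K V × Module.End K W} (hw : w ∈ S) :
    w.1.charpoly ∈ idealV S hw ∧ w.2.charpoly ∈ idealV S hw := by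
  constructor
  · change (aeval w.1 w.1.charpoly, (0 : Module.End K W)) ∈ S
    rw [LinearMap.aeval_self_charpoly]
    exact S.zero_mem
  · have h3 := fst_mem S (aeval_mem S hw w.2.charpoly)
      (by rw [aeval_snd, LinearMap.aeval_self_charpoly])
    rw [aeval_fst] at h3
    exact h3

omit [CharZero K] in
/-- If `p` and `(X - lam) g` are in the ideal, `lam` is the only common root and not a root of
`g`, then `X - lam` is in the ideal. -/
lemma X_sub_C_mem (I : Ideal K[X]) (p g : K[X]) (lam : K) (hp : p ∈ I)
    (hg : (X - C lam) * g ∈ I) (hglam : g.eval lam ≠ 0)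
    (hcom : ∀ β, p.IsRoot β → ((X - C lam) * g).IsRoot β → β = lam) : X - C lam ∈ I := by
  let J : Ideal K[X] :=
    { carrier := {r | r * (X - C lam) ∈ I}
      add_mem' := by
        intro a b ha hb
        change (a + b) * (X - C lam) ∈ I
        rw [add_mul]; exact I.add_mem ha hb
      zero_mem' := by
        change (0 : K[X]) * (X - C lam) ∈ I
        rw [zero_mul]; exact I.zero_mem
      smul_mem' := by
        intro c a ha
        change (c • a) * (X - C lam) ∈ I
        rw [smul_eq_mul, mul_assoc]; exact I.mul_mem_left c ha }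
  have h1 : (1 : K[X]) ∈ J := by
    apply one_mem_of_no_common_root
    intro β
    by_cases hβ : g.IsRoot β
    · refine ⟨p, ?_, ?_⟩
      · change p * (X - C lam) ∈ I
        exact I.mul_mem_right _ hp
      · intro h0
        have h2 := hcom β h0 (by rw [IsRoot, eval_mul, hβ.eq_zero, mul_zero])
        rw [h2] at hβ
        exact hglam hβ
    · refine ⟨g, ?_, hβ⟩
      change g * (X - C lam) ∈ I
      rw [mul_comm]; exact hg
  have h2 : (1 : K[X]) * (X - C lam) ∈ I := h1
  rwa [one_mul] at h2

/-- **One common eigenvalue, simple on `W`**: the projector is in the algebra. -/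
theorem Setting.one_common (h : Setting B D S) {w : Module.End K V × Module.End K W}
    (hw : w ∈ S) (lam : K)
    (hcom : ∀ β, w.1.charpoly.IsRoot β → w.2.charpoly.IsRoot β → β = lam)
    (hm : w.1.charpoly.IsRoot lam → w.2.charpoly.rootMultiplicity lam ≤ 1) :
    ((1 : Module.End K V), (0 : Module.End K W)) ∈ S := by
  obtain ⟨hc1, hc2⟩ := charpoly_mem_idealW hw
  by_cases hroot' : w.1.charpoly.IsRoot lam ∧ w.2.charpoly.IsRoot lam
  swap
  · have h1 : (1 : K[X]) ∈ idealW S hw := by
      apply one_mem_of_no_common_root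
      intro β
      by_cases h1 : w.1.charpoly.IsRoot β
      swap
      · exact ⟨_, hc1, h1⟩
      by_cases h2 : w.2.charpoly.IsRoot β
      swap
      · exact ⟨_, hc2, h2⟩
      have := hcom β h1 h2
      rw [this] at h1 h2
      exact absurd ⟨h1, h2⟩ hroot'
    have h2 : ((0 : Module.End K V), aeval w.2 (1 : K[X])) ∈ S := h1
    rw [map_one] at h2
    exact one_of_snd h2
  have hm1 : w.2.charpoly.rootMultiplicity lam = 1 := by
    have := (Polynomial.rootMultiplicity_pos w.2.charpoly_monic.ne_zero).mpr hroot'.2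
    have := hm hroot'.1
    omega
  obtain ⟨g, q, e, ψ, hg, hglam, hqlam, hψ, -, hE, -⟩ := exists_rank_one w.2 lam hm1
  have hX : X - C lam ∈ idealW S hw := by
    refine X_sub_C_mem (idealW S hw) w.1.charpoly g lam hc1 (by rw [← hg]; exact hc2) hglam ?_
    rw [← hg]; exact hcom
  -- 1 - q is in the ideal
  have hq1 : (1 - q) ∈ idealW S hw := by
    have : (X - C lam) ∣ (1 - q) := dvd_iff_isRoot.mpr (by simp [IsRoot, hqlam])
    obtain ⟨r, hr⟩ := this
    rw [hr]
    exact (idealW S hw).mul_mem_right _ hX
  set s := aeval w q with hs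
  have hsS : s ∈ S := aeval_mem S hw q
  have hs2 : s.2 = aeval w.2 q := aeval_snd w q
  have h1s : ((0 : Module.End K V), 1 - s.2) ∈ S := by
    have : ((0 : Module.End K V), aeval w.2 (1 - q)) ∈ S := hq1
    rwa [map_sub, map_one, ← hs2] at this
  obtain ⟨t, htS, ht⟩ := h.adj s hsS
  have h1t : ((0 : Module.End K V), 1 - t.2) ∈ S := by
    obtain ⟨r, hrS, hr⟩ := h.adj _ h1s
    have e1 : r.1 = 0 := by
      refine adj_unique B 1 (fun x y => by rw [one_mul]; exact h.symm x y) h.ndB _ _ ?_
      intro x y
      rw [← hr.1 x y]; simp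
    have e2 : r.2 = 1 - t.2 := by
      refine adj_unique D (-1) (fun x y => by rw [neg_one_mul]; exact h.alt x y) h.ndC _ _ ?_
      intro x y
      rw [← hr.2 x y]
      simp only [LinearMap.sub_apply, Module.End.one_apply, map_sub]
      rw [← ht.2 x y]
    have := snd_mem hrS e1
    rwa [e2] at this
  have hts : t.2 * s.2 = 0 := by
    ext x
    rw [LinearMap.zero_apply]
    apply h.ndC
    intro y
    rw [Module.End.mul_apply, h.swapC ht, hs2, hE x, hE y]
    simp [h.alt_self]
  have h2 := S.add_mem h1t (mul_left_mem' htS h1s)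
  have e3 : ((0 : Module.End K V), 1 - t.2) + ((0 : Module.End K V), t.2 * (1 - s.2)) = (0, 1) := by
    ext1
    · simp
    · change 1 - t.2 + t.2 * (1 - s.2) = 1
      rw [mul_sub, hts]; simp
  rw [e3] at h2
  exact one_of_snd h2

/-- **One common eigenvalue, simple on `V`**: for `e = p(w)` with `p(lam) = 1` and
`charpoly w ∣ p (X - lam)` and its adjoint `e'`, the operator `e' (w + w') e` has rank one on `V`,
with trace `2 lam` unless the projector is in the algebra. -/
theorem Setting.trace_eq (h : Setting B D S) {w w' : Module.End K V × Module.End K W}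
    (hw : w ∈ S) (hw' : w' ∈ S) (hadj : IsAdj B D w w') (lam : K) (hlam : lam ≠ 0)
    (hcom : ∀ β, w.1.charpoly.IsRoot β → w.2.charpoly.IsRoot β → β = lam)
    (hm : w.1.charpoly.rootMultiplicity lam = 1)
    (p : K[X]) (hp : p.eval lam = 1) (hdvd : w.1.charpoly ∣ p * (X - C lam))
    (hnot : ((1 : Module.End K V), (0 : Module.End K W)) ∉ S) (n : ℕ) :
    LinearMap.trace K V (((aeval w'.1 p) * (w.1 + w'.1) * (aeval w.1 p)) ^ (n + 1)) =
      (2 * lam) ^ (n + 1) := by
  obtain ⟨hc1, hc2⟩ := charpoly_mem_idealV hw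
  obtain ⟨g, q, e, ψ, hg, hglam, hqlam, hψ, hwe, hE, hspan⟩ := exists_rank_one w.1 lam hm
  have hX : X - C lam ∈ idealV S hw := by
    refine X_sub_C_mem (idealV S hw) w.2.charpoly g lam hc2 (by rw [← hg]; exact hc1) hglam ?_
    rw [← hg]
    exact fun β h1 h2 => hcom β h2 h1
  have hX1 : (w.1 - algebraMap K _ lam, (0 : Module.End K W)) ∈ S := by
    have : (aeval w.1 (X - C lam), (0 : Module.End K W)) ∈ S := hX
    rwa [map_sub, aeval_X, aeval_C] at this
  -- the adjoint
  have hX2 : (w'.1 - algebraMap K _ lam, (0 : Module.End K W)) ∈ S := by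
    obtain ⟨r, hrS, hr⟩ := h.adj _ hX1
    have e1 : r.1 = w'.1 - algebraMap K _ lam := by
      refine adj_unique B 1 (fun x y => by rw [one_mul]; exact h.symm x y) h.ndB _ _ ?_
      intro x y
      rw [← hr.1 x y]
      simp only [LinearMap.sub_apply, map_sub, Module.algebraMap_end_apply, map_smul,
        LinearMap.smul_apply]
      rw [← hadj.1 x y]
    have e2 : r.2 = 0 := by
      refine adj_unique D (-1) (fun x y => by rw [neg_one_mul]; exact h.alt x y) h.ndC _ _ ?_
      intro x y
      rw [← hr.2 x y]; simp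
    have := fst_mem S hrS e2
    rwa [e1] at this
  -- modulo the ideal J of all x with (x,0) in S
  set J : Submodule K (Module.End K V) :=
    { carrier := {x | (x, (0 : Module.End K W)) ∈ S}
      add_mem' := by
        intro a b ha hb
        have h3 := S.add_mem ha hb
        have e3 : (a, (0 : Module.End K W)) + (b, (0 : Module.End K W)) = (a + b, 0) := by
          ext1 <;> simp
        rwa [e3] at h3
      zero_mem' := S.zero_mem
      smul_mem' := by
        intro c a ha
        have h3 := S.smul_mem ha c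
        have e3 : c • (a, (0 : Module.End K W)) = (c • a, 0) := by ext1 <;> simp
        rwa [e3] at h3 } with hJ
  have hJl : ∀ s ∈ S, ∀ x ∈ J, s.1 * x ∈ J := fun s hs x hx => mul_left_mem S hs hx
  have hJr : ∀ s ∈ S, ∀ x ∈ J, x * s.1 ∈ J := fun s hs x hx => mul_right_mem S hs hx
  -- p(w) = 1 mod J
  have hpJ : ∀ {v : Module.End K V × Module.End K W}, v ∈ S → v.1 - algebraMap K _ lam ∈ J →
      aeval v.1 p - 1 ∈ J := by
    intro v hv hvJ
    have : (X - C lam) ∣ (p - 1) := dvd_iff_isRoot.mpr (by simp [IsRoot, hp])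
    obtain ⟨r, hr⟩ := this
    have h3 : aeval v.1 p - 1 = (v.1 - algebraMap K _ lam) * (aeval v r).1 := by
      have := congrArg (aeval v.1) hr
      rw [map_sub, map_one, map_mul, map_sub, aeval_X, aeval_C] at this
      rw [this, aeval_fst]
    rw [h3]
    exact hJr _ (aeval_mem S hv r) _ hvJ
  have hp1 : aeval w.1 p - 1 ∈ J := hpJ hw hX1
  have hp2 : aeval w'.1 p - 1 ∈ J := hpJ hw' hX2
  set y : Module.End K V := (aeval w'.1 p) * (w.1 + w'.1) * (aeval w.1 p) with hy
  have hyJ : y - algebraMap K _ (2 * lam) ∈ J := by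
    have e1 : y - algebraMap K _ (2 * lam) =
        (aeval w'.1 p) * (w.1 + w'.1) * (aeval w.1 p - 1) +
        ((aeval w'.1 p - 1) * (w.1 + w'.1) + ((w.1 - algebraMap K _ lam) +
          (w'.1 - algebraMap K _ lam))) := by
      rw [hy, two_mul, map_add]; noncomm_ring
    rw [e1]
    refine J.add_mem ?_ (J.add_mem ?_ (J.add_mem hX1 hX2))
    · have := hJl (aeval w' p * (w + w')) (S.mul_mem (aeval_mem S hw' p) (S.add_mem hw hw')) _ hp1
      rwa [Prod.fst_mul, aeval_fst] at this
    · exact hJr (w + w') (S.add_mem hw hw') _ hp2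
  -- rank one
  have hpe : ∀ x, ∃ c : K, aeval w.1 p x = c • e := by
    intro x
    apply hspan
    have h2 : aeval w.1 (p * (X - C lam)) x = 0 := by
      obtain ⟨r, hr⟩ := hdvd
      rw [hr, map_mul, LinearMap.aeval_self_charpoly, zero_mul]; rfl
    rw [mul_comm, map_mul, map_sub, aeval_X, aeval_C, Module.End.mul_apply, LinearMap.sub_apply,
      Module.algebraMap_end_apply, sub_eq_zero] at h2
    exact h2
  have hyx : ∃ (θ : V →ₗ[K] K) (f : V), y = θ.smulRight f := by
    refine ⟨ψ ∘ₗ aeval w.1 p, aeval w'.1 p ((w.1 + w'.1) e), ?_⟩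
    ext x
    obtain ⟨c, hc⟩ := hpe x
    rw [hy, Module.End.mul_apply, Module.End.mul_apply, LinearMap.smulRight_apply,
      LinearMap.comp_apply, hc, map_smul, map_smul, map_smul, hψ, smul_eq_mul, mul_one]
  obtain ⟨θ, f, hθ⟩ := hyx
  have hyy : y * y = (θ f) • y := by
    rw [hθ]
    ext x
    rw [Module.End.mul_apply, LinearMap.smulRight_apply, LinearMap.smulRight_apply, map_smul,
      LinearMap.smul_apply, LinearMap.smulRight_apply, smul_smul, smul_eq_mul, mul_comm]
  have hτ : θ f = 2 * lam := by
    by_contra hne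
    -- y² - τ y = 0, y ≡ 2 lam : (2 lam)² - τ 2 lam ∈ J
    have hyS : y = ((aeval w' p * (w + w')) * aeval w p).1 := by
      rw [Prod.fst_mul, Prod.fst_mul, aeval_fst, aeval_fst]; rfl
    have h3 : algebraMap K (Module.End K V) ((2 * lam) * (2 * lam - θ f)) ∈ J := by
      have e1 : algebraMap K (Module.End K V) ((2 * lam) * (2 * lam - θ f)) =
          - ((y - algebraMap K _ (2 * lam)) * y +
            (2 * lam - θ f) • (y - algebraMap K _ (2 * lam))) := by
        rw [sub_mul, hyy, smul_sub, map_mul, Algebra.algebraMap_eq_smul_one,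
          Algebra.algebraMap_eq_smul_one, smul_mul_assoc, one_mul, smul_smul,
          smul_mul_assoc, one_mul, smul_smul, sub_smul]
        module
      rw [e1]
      refine J.neg_mem (J.add_mem ?_ (J.smul_mem _ hyJ))
      have hmem : (aeval w' p * (w + w')) * aeval w p ∈ S :=
        S.mul_mem (S.mul_mem (aeval_mem S hw' p) (S.add_mem hw hw')) (aeval_mem S hw p)
      have h4 := hJr _ hmem _ hyJ
      rwa [← hyS] at h4
    have hc0 : (2 * lam) * (2 * lam - θ f) ≠ 0 :=
      mul_ne_zero (mul_ne_zero two_ne_zero hlam) (sub_ne_zero.mpr (Ne.symm hne))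
    apply hnot
    have h4 := J.smul_mem ((2 * lam) * (2 * lam - θ f))⁻¹ h3
    rw [Algebra.algebraMap_eq_smul_one, smul_smul, inv_mul_cancel₀ hc0, one_smul] at h4
    exact h4
  have hpow : y ^ (n + 1) = (θ f) ^ n • y := by
    induction n with
    | zero => simp
    | succ n ih => rw [pow_succ, ih, smul_mul_assoc, hyy, smul_smul, pow_succ]
  rw [hpow, map_smul, hθ, LinearMap.trace_smulRight, smul_eq_mul, hτ, pow_succ]

end Pool.Agent.Helper37.Sign
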