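import Pool.Agent.Helper37.Sign.BaseChange
import Pool.Agent.Helper37.Sign.Even

/-! Rationality: multiplicities of conjugate roots, and the zeta function in terms of the
eigenvalues. -/

set_option autoImplicit false

namespace Pool.Agent.Helper37.Sign

open Polynomial Module Pool.Agent.Helper17.Sign

/-- conjugate roots of a rational polynomial have the same multiplicity -/
lemma rootMultiplicity_conj {K : Type*} [Field K] [CharZero K] (q : ℚ[X]) (hq : Irreducible q)
    (τ τ' : K) (h1 : aeval τ q = 0) (h2 : aeval τ' q = 0) (n : ℕ) : ∀ p : ℚ[X], p ≠ 0 →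
    p.natDegree ≤ n → (p.map (algebraMap ℚ K)).rootMultiplicity τ =
      (p.map (algebraMap ℚ K)).rootMultiplicity τ' := by
  have hdvd : ∀ (a : K), aeval a q = 0 → ∀ p : ℚ[X], aeval a p = 0 → q ∣ p := by
    intro a ha p hp
    by_contra hnd
    have hc : IsCoprime q p := (hq.coprime_iff_not_dvd).mpr hnd
    obtain ⟨x, y, hxy⟩ := hc
    have := congrArg (aeval a) hxy
    simp [ha, hp] at this
  have hsep : (q.map (algebraMap ℚ K)).Separable := (hq.separable).map
  have hqne : q.map (algebraMap ℚ K) ≠ 0 := (Polynomial.map_ne_zero_iff (algebraMap ℚ K).injective).mpr hq.ne_zero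
  have hone : ∀ a : K, aeval a q = 0 → (q.map (algebraMap ℚ K)).rootMultiplicity a = 1 := by
    intro a ha
    have h3 := Polynomial.rootMultiplicity_le_one_of_separable hsep a
    have h4 : 0 < (q.map (algebraMap ℚ K)).rootMultiplicity a := by
      rw [Polynomial.rootMultiplicity_pos hqne, IsRoot, eval_map_algebraMap]
      exact ha
    omega
  induction n with
  | zero =>
    intro p hp hn
    have hpc : p = C (p.coeff 0) := Polynomial.eq_C_of_natDegree_eq_zero (by omega)
    have hc0 : p.coeff 0 ≠ 0 := by
      intro h0; rw [h0, C_0] at hpc; exact hp hpc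
    rw [hpc]
    simp only [Polynomial.map_C]
    rw [Polynomial.rootMultiplicity_C, Polynomial.rootMultiplicity_C]
  | succ n ih =>
    intro p hp hn
    by_cases hpq : q ∣ p
    · obtain ⟨r, rfl⟩ := hpq
      have hr : r ≠ 0 := right_ne_zero_of_mul hp
      have hdeg : r.natDegree ≤ n := by
        rw [Polynomial.natDegree_mul hq.ne_zero hr] at hn
        have := hq.natDegree_pos
        omega
      have hne : (q * r).map (algebraMap ℚ K) ≠ 0 :=
        (Polynomial.map_ne_zero_iff (algebraMap ℚ K).injective).mpr hp
      rw [Polynomial.map_mul] at hne ⊢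
      rw [Polynomial.rootMultiplicity_mul hne, Polynomial.rootMultiplicity_mul hne, hone τ h1,
        hone τ' h2, ih r hr hdeg]
    · have h3 : ∀ a : K, aeval a q = 0 → (p.map (algebraMap ℚ K)).rootMultiplicity a = 0 := by
        intro a ha
        apply Polynomial.rootMultiplicity_eq_zero
        rw [IsRoot, eval_map_algebraMap]
        exact fun h => hpq (hdvd a ha p h)
      rw [h3 τ h1, h3 τ' h2]

/-- an irreducible rational polynomial with an irrational root has another root -/
lemma exists_conj {K : Type*} [Field K] [CharZero K] [IsAlgClosed K] (q : ℚ[X])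
    (hq : Irreducible q) (τ : K) (h1 : aeval τ q = 0) (hirr : ∀ r : ℚ, (r : K) ≠ τ) :
    ∃ τ' : K, aeval τ' q = 0 ∧ τ' ≠ τ := by
  by_contra hcon
  push Not at hcon
  have hsep : (q.map (algebraMap ℚ K)).Separable := (hq.separable).map
  have hqne : q.map (algebraMap ℚ K) ≠ 0 := (Polynomial.map_ne_zero_iff (algebraMap ℚ K).injective).mpr hq.ne_zero
  have hroots : (q.map (algebraMap ℚ K)).roots = {τ} := by
    have hnd := Polynomial.nodup_roots hsep
    have hmem : ∀ a, a ∈ (q.map (algebraMap ℚ K)).roots ↔ a ∈ ({τ} : Multiset K) := by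
      intro a
      rw [mem_roots hqne, IsRoot, eval_map_algebraMap, Multiset.mem_singleton]
      constructor
      · exact hcon a
      · rintro rfl; exact h1
    exact (Multiset.Nodup.ext hnd (Multiset.nodup_singleton τ)).mpr hmem
  have hs := IsAlgClosed.splits (q.map (algebraMap ℚ K))
  have hprod := hs.eq_prod_roots
  rw [hroots] at hprod
  simp only [Multiset.map_singleton, Multiset.prod_singleton, Polynomial.leadingCoeff_map] at hprod
  have h3 := congrArg (fun p => Polynomial.coeff p 0) hprod
  simp only [Polynomial.coeff_map, Polynomial.coeff_C_mul, Polynomial.coeff_sub,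
    Polynomial.coeff_X_zero, Polynomial.coeff_C_zero, zero_sub] at h3
  have hl : q.leadingCoeff ≠ 0 := Polynomial.leadingCoeff_ne_zero.mpr hq.ne_zero
  apply hirr (-(q.coeff 0 / q.leadingCoeff))
  have hl' : (algebraMap ℚ K) q.leadingCoeff ≠ 0 := by
    rwa [Ne, map_eq_zero]
  have h4 : ((-(q.coeff 0 / q.leadingCoeff) : ℚ) : K) =
      -((algebraMap ℚ K) (q.coeff 0) / (algebraMap ℚ K) q.leadingCoeff) := by
    rw [← map_div₀, ← map_neg]; rfl
  rw [h4, h3]
  field_simp


open Classical in
/-- A multiset with even multiplicities and an irrational number never have rational differences of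
power sums. -/
lemma no_irrational {K : Type*} [Field K] [CharZero K] [IsAlgClosed K] (t : Multiset K) (τ : K)
    (heven : ∀ μ, Even (t.count μ)) (hirr : ∀ r : ℚ, (r : K) ≠ τ)
    (hsum : ∀ n : ℕ, ∃ q : ℚ, τ ^ (n + 1) - (t.map (· ^ (n + 1))).sum = (q : K)) : False := by
  by_cases hmem : τ ∈ t
  · -- the other multiplicities are determined by a rational polynomial
    obtain ⟨t', rfl⟩ := Multiset.exists_cons_of_mem hmem
    obtain ⟨p, hp⟩ := rational_of_disjoint t' 0 (by
      intro n hn
      obtain ⟨m, rfl⟩ : ∃ m, n = m + 1 := ⟨n - 1, by omega⟩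
      obtain ⟨q, hq⟩ := hsum m
      refine ⟨-q, ?_⟩
      rw [Rat.cast_neg, ← hq]
      simp) (by simp)
    have hpne : p ≠ 0 := by
      rintro rfl
      rw [Polynomial.map_zero] at hp
      have := (Polynomial.monic_multiset_prod_of_monic t' (fun a => X - C a)
        (fun a _ => monic_X_sub_C a)).ne_zero
      exact this hp.symm
    have hcount : ∀ μ, (p.map (algebraMap ℚ K)).rootMultiplicity μ = t'.count μ := by
      intro μ
      rw [hp, ← Polynomial.count_roots, Polynomial.roots_multiset_prod_X_sub_C]
    have hτ : Odd (t'.count τ) := by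
      have := heven τ
      rw [Multiset.count_cons_self] at this
      exact Nat.even_add_one.mp this |> Nat.not_even_iff_odd.mp
    have hother : ∀ μ, μ ≠ τ → Even (t'.count μ) := by
      intro μ hμ
      have := heven μ
      rwa [Multiset.count_cons_of_ne hμ] at this
    have hroot : aeval τ p = 0 := by
      have h1 : (p.map (algebraMap ℚ K)).IsRoot τ := by
        rw [← Polynomial.rootMultiplicity_pos
          ((Polynomial.map_ne_zero_iff (algebraMap ℚ K).injective).mpr hpne), hcount]
        exact hτ.pos
      rwa [IsRoot, eval_map_algebraMap] at h1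
    have hint : IsIntegral ℚ τ := by
      rw [← isAlgebraic_iff_isIntegral]
      exact ⟨p, hpne, hroot⟩
    have hqirr := minpoly.irreducible hint
    obtain ⟨τ', hτ', hne⟩ := exists_conj (minpoly ℚ τ) hqirr τ (minpoly.aeval ℚ τ) hirr
    have h1 := rootMultiplicity_conj (minpoly ℚ τ) hqirr τ τ' (minpoly.aeval ℚ τ) hτ'
      p.natDegree p hpne le_rfl
    rw [hcount, hcount] at h1
    rw [h1] at hτ
    exact (Nat.not_even_iff_odd.mpr hτ) (hother τ' hne)
  · obtain ⟨p, hp⟩ := rational_of_disjoint {τ} t (by
      intro n hn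
      obtain ⟨m, rfl⟩ : ∃ m, n = m + 1 := ⟨n - 1, by omega⟩
      obtain ⟨q, hq⟩ := hsum m
      refine ⟨q, ?_⟩
      rw [← hq]
      simp) (by
        intro a ha
        rw [Multiset.mem_singleton] at ha
        rwa [ha])
    apply hirr (-(p.coeff 0))
    have h3 := congrArg (fun p => Polynomial.coeff p 0) hp
    simp only [Multiset.map_singleton, Multiset.prod_singleton, Polynomial.coeff_map,
      Polynomial.coeff_sub, Polynomial.coeff_X_zero, Polynomial.coeff_C_zero, zero_sub] at h3
    rw [Rat.cast_neg]
    have h4 : ((p.coeff 0 : ℚ) : K) = algebraMap ℚ K (p.coeff 0) := rfl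
    rw [h4, h3, neg_neg]

end Pool.Agent.Helper37.Sign
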