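import Pool.Agent.Helper37.Sign.Rat

/-! The zeta function and the common eigenvalues. -/

set_option autoImplicit false

namespace Pool.Agent.Helper37.Sign

open Polynomial Module Pool.Agent.Helper17.Sign

section
variable {F V W : Type*} [Field F] [CharZero F] [AddCommGroup V] [Module F V]
  [FiniteDimensional F V] [AddCommGroup W] [Module F W] [FiniteDimensional F W]

/-- The zeta function in terms of the eigenvalues. -/
theorem cross_of_zeta (f : Module.End F V) (g : Module.End F W) (s : ℕ → ℚ)
    (hs : ∀ n, 1 ≤ n → LinearMap.trace F V (f ^ n) - LinearMap.trace F W (g ^ n) = (s n : F))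
    (P Q : ℚ[X]) (hz : IsZeta s P Q) :
    Q.map (algebraMap ℚ (AlgebraicClosure F)) * Ppol (eig f) =
      Ppol (eig g) * P.map (algebraMap ℚ (AlgebraicClosure F)) := by
  set K := AlgebraicClosure F with hK
  obtain ⟨hP0, hQ0, hPQ, hlog⟩ := hz
  set φ : ℚ →+* K := algebraMap ℚ K with hφ
  set PK : K[X] := P.map φ with hPK
  set QK : K[X] := Q.map φ with hQK
  set S : PowerSeries K := Tser (eig f) - Tser (eig g) with hS
  have hScoeff : S = PowerSeries.map φ (PowerSeries.mk (fun n => if n = 0 then 0 else s n)) := by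
    ext n
    rw [PowerSeries.coeff_map, PowerSeries.coeff_mk]
    simp only [hS, map_sub, Tser, PowerSeries.coeff_mk]
    split_ifs with hn
    · simp
    · rw [← trace_pow, ← trace_pow, ← map_sub, hs n (by omega)]
      simp [hφ]
  have hS0 : PowerSeries.constantCoeff S = 0 := by
    rw [← PowerSeries.coeff_zero_eq_constantCoeff_apply]
    simp [hS, Tser]
  have hPK0 : PK.coeff 0 = 1 := by rw [hPK, coeff_map, hP0, map_one]
  have hQK0 : QK.coeff 0 = 1 := by rw [hQK, coeff_map, hQ0, map_one]
  have hlogK : PowerSeries.X * (PowerSeries.derivative K (QK : PowerSeries K) * (PK : PowerSeries K)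
      - (QK : PowerSeries K) * PowerSeries.derivative K (PK : PowerSeries K)) =
      (PK : PowerSeries K) * (QK : PowerSeries K) * S := by
    have h1 := congrArg (PowerSeries.map φ) hlog
    rw [map_mul, map_mul, ← hScoeff, ← Polynomial.polynomial_map_coe,
      ← Polynomial.polynomial_map_coe, ← Polynomial.polynomial_map_coe, ← hPK, ← hQK] at h1
    rw [← h1, PowerSeries.derivative_coe, PowerSeries.derivative_coe]
    simp only [Polynomial.map_mul, Polynomial.map_sub, Polynomial.map_X, ← Polynomial.derivative_map,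
      Polynomial.coe_mul, Polynomial.coe_sub, Polynomial.coe_X, ← hPK, ← hQK]
  have hPc : PowerSeries.constantCoeff (PK : PowerSeries K) ≠ 0 := by
    rw [← PowerSeries.coeff_zero_eq_constantCoeff_apply, Polynomial.coeff_coe, hPK0]
    exact one_ne_zero
  have hPhc : PowerSeries.constantCoeff (Pser (eig f)) ≠ 0 := by
    rw [constCoeff_Pser]; exact one_ne_zero
  have quot : ∀ (p q : PowerSeries K), PowerSeries.constantCoeff p = 1 →
      PowerSeries.constantCoeff q = 1 →
      PowerSeries.X * (PowerSeries.derivative K q * p - q * PowerSeries.derivative K p) =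
        p * q * S →
      PowerSeries.X * PowerSeries.derivative K (q * p⁻¹) = q * p⁻¹ * S ∧
        PowerSeries.constantCoeff (q * p⁻¹) = 1 := by
    intro p q hp hq h
    have hp' : PowerSeries.constantCoeff p ≠ 0 := by rw [hp]; exact one_ne_zero
    have hinv : p * p⁻¹ = 1 := PowerSeries.mul_inv_cancel _ hp'
    constructor
    · set E := q * p⁻¹ with hE
      have hqE : q = p * E := by rw [hE, mul_comm q, ← mul_assoc, hinv, one_mul]
      have hd : PowerSeries.derivative K q = p * PowerSeries.derivative K E +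
          E * PowerSeries.derivative K p := by
        rw [hqE, Derivation.leibniz]; simp only [smul_eq_mul]
      have hpne : p ≠ 0 := by rintro rfl; simp at hp'
      have h4 : p ^ 2 * (PowerSeries.X * PowerSeries.derivative K E) = p ^ 2 * (E * S) := by
        rw [hd] at h
        rw [hqE] at h
        linear_combination h
      exact mul_left_cancel₀ (pow_ne_zero 2 hpne) h4
    · rw [map_mul, hq, PowerSeries.constantCoeff_inv, hp]; simp
  obtain ⟨e1, e1'⟩ := quot (PK : PowerSeries K) (QK : PowerSeries K)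
    (by rw [← PowerSeries.coeff_zero_eq_constantCoeff_apply, Polynomial.coeff_coe, hPK0])
    (by rw [← PowerSeries.coeff_zero_eq_constantCoeff_apply, Polynomial.coeff_coe, hQK0]) hlogK
  obtain ⟨e2, e2'⟩ := quot (Pser (eig f)) (Pser (eig g)) (constCoeff_Pser _) (constCoeff_Pser _) (by
    have h1 := logderiv (eig f)
    have h2 := logderiv (eig g)
    rw [hS]
    linear_combination (Pser (eig f)) * h2 - (Pser (eig g)) * h1)
  have heq := unique_of_logderiv _ _ S e1 e2 e1' e2' hS0
  apply Polynomial.coe_injective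
  rw [Polynomial.coe_mul, Polynomial.coe_mul, coe_Ppol, coe_Ppol]
  have i1 : (PK : PowerSeries K) * (PK : PowerSeries K)⁻¹ = 1 := PowerSeries.mul_inv_cancel _ hPc
  have i2 : Pser (eig f) * (Pser (eig f))⁻¹ = 1 := PowerSeries.mul_inv_cancel _ hPhc
  linear_combination (PK : PowerSeries K) * Pser (eig f) * heq
    - (QK : PowerSeries K) * Pser (eig f) * i1 + Pser (eig g) * (PK : PowerSeries K) * i2

lemma Ppol_add {K : Type*} [Field K] (s t : Multiset K) : Ppol (s + t) = Ppol s * Ppol t := by
  simp [Ppol]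

lemma eq_of_dvd_dvd {K : Type*} [Field K] (A B : K[X]) (h1 : A ∣ B) (h2 : B ∣ A)
    (hA : A.coeff 0 = 1) (hB : B.coeff 0 = 1) : A = B := by
  obtain ⟨u, hu⟩ := h1
  obtain ⟨v, hv⟩ := h2
  have hAne : A ≠ 0 := by rintro rfl; simp at hA
  have huv : u * v = 1 := by
    have : A * (u * v) = A * 1 := by rw [← mul_assoc, ← hu, ← hv, mul_one]
    exact mul_left_cancel₀ hAne this
  have hunit : IsUnit u := IsUnit.of_mul_eq_one v huv
  obtain ⟨c, -, hc⟩ := Polynomial.isUnit_iff.mp hunit
  have hc1 : c = 1 := by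
    rw [hu, ← hc, Polynomial.mul_coeff_zero, hA, Polynomial.coeff_C_zero, one_mul] at hB
    exact hB
  rw [hu, ← hc, hc1, C_1, mul_one]

open Classical in
/-- Numerator and denominator of the zeta function in terms of the non common eigenvalues. -/
theorem zeta_parts (f : Module.End F V) (g : Module.End F W) (s : ℕ → ℚ)
    (hs : ∀ n, 1 ≤ n → LinearMap.trace F V (f ^ n) - LinearMap.trace F W (g ^ n) = (s n : F))
    (P Q : ℚ[X]) (hz : IsZeta s P Q) :
    P.map (algebraMap ℚ (AlgebraicClosure F)) = Ppol (eig f - eig g) ∧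
      Q.map (algebraMap ℚ (AlgebraicClosure F)) = Ppol (eig g - eig f) := by
  have hcross := cross_of_zeta f g s hs P Q hz
  obtain ⟨hP0, hQ0, hPQ, -⟩ := hz
  set K := AlgebraicClosure F with hK
  set φ : ℚ →+* K := algebraMap ℚ K with hφ
  have hPK0 : (P.map φ).coeff 0 = 1 := by rw [coeff_map, hP0, map_one]
  have hQK0 : (Q.map φ).coeff 0 = 1 := by rw [coeff_map, hQ0, map_one]
  have hcop : IsCoprime (P.map φ) (Q.map φ) := hPQ.map (Polynomial.mapRingHom φ)
  have hcop2 : IsCoprime (Ppol (eig f - eig g)) (Ppol (eig g - eig f)) := by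
    apply coprime_Ppol
    intro a ha hb
    rw [Multiset.mem_sub] at ha hb
    omega
  have e1 : Ppol (eig f) = Ppol (eig f - eig g) * Ppol (eig f ∩ eig g) := by
    rw [← Ppol_add, Multiset.sub_add_inter]
  have e2 : Ppol (eig g) = Ppol (eig g - eig f) * Ppol (eig f ∩ eig g) := by
    rw [← Ppol_add, Multiset.inter_comm, Multiset.sub_add_inter]
  have hcross2 : Q.map φ * Ppol (eig f - eig g) = Ppol (eig g - eig f) * P.map φ := by
    apply mul_right_cancel₀ (Ppol_ne_zero (eig f ∩ eig g))
    rw [mul_assoc, ← e1, hcross, e2]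
    ring
  constructor
  · refine eq_of_dvd_dvd _ _ ?_ ?_ hPK0 (coeff_zero_Ppol _)
    · exact hcop.dvd_of_dvd_mul_left ⟨Ppol (eig g - eig f), by rw [hcross2]; ring⟩
    · exact hcop2.dvd_of_dvd_mul_left ⟨Q.map φ, by rw [← hcross2]; ring⟩
  · refine eq_of_dvd_dvd _ _ ?_ ?_ hQK0 (coeff_zero_Ppol _)
    · refine hcop.symm.dvd_of_dvd_mul_right ⟨Ppol (eig f - eig g), ?_⟩
      rw [← hcross2]
    · refine hcop2.symm.dvd_of_dvd_mul_right ⟨P.map φ, ?_⟩
      rw [hcross2]

open Classical in
/-- Total degree at least `dim V + dim W - 2`: there is at most one common eigenvalue. -/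
theorem zeta_common (f : Module.End F V) (g : Module.End F W) (s : ℕ → ℚ)
    (hs : ∀ n, 1 ≤ n → LinearMap.trace F V (f ^ n) - LinearMap.trace F W (g ^ n) = (s n : F))
    (P Q : ℚ[X]) (hz : IsZeta s P Q)
    (hdeg : finrank F V + finrank F W ≤ P.natDegree + Q.natDegree + 2) :
    eig f ∩ eig g = 0 ∨ ∃ lam, eig f ∩ eig g = {lam} ∧ (0 : AlgebraicClosure F) ∉ eig g - eig f ∧
      finrank F W = Q.natDegree + 1 := by
  obtain ⟨hP, hQ⟩ := zeta_parts f g s hs P Q hz
  have n1 : (P.map (algebraMap ℚ (AlgebraicClosure F))).natDegree = P.natDegree := natDegree_map _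
  have n2 : (Q.map (algebraMap ℚ (AlgebraicClosure F))).natDegree = Q.natDegree := natDegree_map _
  rw [hP] at n1
  rw [hQ] at n2
  have m1 := natDegree_Ppol (eig f - eig g)
  have m2 := natDegree_Ppol (eig g - eig f)
  have c1 : (eig f - eig g).card + (eig f ∩ eig g).card = finrank F V := by
    rw [← Multiset.card_add, Multiset.sub_add_inter, card_eig]
  have c2 : (eig g - eig f).card + (eig f ∩ eig g).card = finrank F W := by
    rw [← Multiset.card_add, Multiset.inter_comm, Multiset.sub_add_inter, card_eig]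
  rcases Nat.eq_zero_or_pos (eig f ∩ eig g).card with h0 | h0
  · left; exact Multiset.card_eq_zero.mp h0
  · right
    have h1 : (eig f ∩ eig g).card = 1 := by omega
    obtain ⟨lam, hlam⟩ := Multiset.card_eq_one.mp h1
    refine ⟨lam, hlam, ?_, by omega⟩
    exact zero_not_mem_of_natDegree _ (by omega)

end

end Pool.Agent.Helper37.Sign
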